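import Pool.Agent.Q39.RD.Final

set_option autoImplicit false

/-!
# The multipliers for which a sequence does not meet record prime gaps have small dimension

Let `a n`, `b n` be real sequences with `a (n + 1) - a n ≥ n ^ (ρ - 1)` and `|a n| ≤ n ^ (c + o(1))`,
where `0 < ρ ≤ 1`, `ρ ≤ c`; nothing is assumed on `b`.  Then all real numbers `α` outside a set of
Hausdorff dimension at most `1 - ρ / c` have the following property if `α a n + b n` is at least a
power of `n` for all large `n`: for every `δ > 0` there is `κ > 0` such that for all large `M` at least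
`M ^ (1 - δ)` of the indices `n` in `(M, 4 M]` are such that no prime lies within
`κ log M (log₂ M)² log₄ M / (log₃ M)²` of `α a n + b n`.

For sequences of integers `a n ≤ n ^ (1 + o(1))` (the primes, the integers of a set of positive
density) the exceptional multipliers form a set of dimension zero.

Proof.  Sharp mean squares over the multipliers bound the measure of the bad multipliers in a scale;
as the exponential sums change little when `α` changes by `N ^ (-c - η)`, the bad multipliers are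
covered by `N ^ (c - ρ + O(η))` intervals of this length.  The covering sieve of the starting library,
in the form `Pool.Agent.Y961.JR.crit_scaledJ`, is used for all subsets of large size.
-/

open MeasureTheory Filter

namespace Pool.Agent.Results.MP_7b323f_nt.ExceptionalMultipliers

/-- `L(x) = log x (log log x)^2 log log log log x / (log log log x)^2`. -/
noncomputable def L (x : ℝ) : ℝ :=
  Real.log x * (Real.log (Real.log x)) ^ 2 * Real.log (Real.log (Real.log (Real.log x))) /
    (Real.log (Real.log (Real.log x))) ^ 2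

/-- for every `δ > 0` there is `κ > 0` such that for all large `M` at least `M ^ (1 - δ)` of the
numbers `x n`, `M < n ≤ 4 M`, are at distance greater than `κ L(M)` from all primes -/
def MeetsRecordGapsOften (x : ℕ → ℝ) : Prop :=
  ∀ δ : ℝ, 0 < δ → ∃ κ : ℝ, 0 < κ ∧ ∀ᶠ M : ℝ in atTop, ∃ s : Finset ℕ,
    M ^ (1 - δ) ≤ (s.card : ℝ) ∧ ∀ n ∈ s, M < n ∧ (n : ℝ) ≤ 4 * M ∧
      ∀ q : ℕ, q.Prime → κ * L M < |(q : ℝ) - x n|

theorem result (ρ c : ℝ) (hρ : 0 < ρ) (hρ1 : ρ ≤ 1) (hρc : ρ ≤ c) (a b : ℕ → ℝ)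
    (ha : ∀ᶠ n : ℕ in atTop, (n : ℝ) ^ (ρ - 1) ≤ a (n + 1) - a n)
    (hac : ∀ c' : ℝ, c < c' → ∀ᶠ n : ℕ in atTop, |a n| ≤ (n : ℝ) ^ c') :
    dimH {α : ℝ | (∃ ε : ℝ, 0 < ε ∧ ∀ᶠ n : ℕ in atTop, (n : ℝ) ^ ε ≤ α * a n + b n) ∧
      ¬ MeetsRecordGapsOften (fun n => α * a n + b n)} ≤ ENNReal.ofReal (1 - ρ / c) := by
  have h := Pool.Agent.Q39.RD.main_dim (r := 1) le_rfl ρ c hρ.le hρ1 hρc (by linarith)
    (fun n _ => a n) (fun n _ => b n) (by
      filter_upwards [ha] with n hn j
      exact hn) (by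
      intro c' hc'
      filter_upwards [hac c' hc'] with n hn j
      exact hn)
  rw [Nat.cast_one] at h
  refine le_trans ?_ h
  have hL : LipschitzWith 1 (fun v : Fin 1 → ℝ => v 0) := LipschitzWith.eval 0
  refine le_trans (dimH_mono ?_) (hL.dimH_image_le _)
  rintro α ⟨⟨ε, hε, h1⟩, h2⟩
  refine ⟨fun _ => α, ⟨⟨ε, hε, ?_⟩, ?_⟩, rfl⟩
  · filter_upwards [h1] with n hn j
    exact hn
  · intro h3
    apply h2
    intro δ hδ
    obtain ⟨κ, hκ, h4⟩ := h3 δ hδ
    refine ⟨κ, hκ, ?_⟩
    unfold Pool.Agent.Q39.RD.Many at h4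
    filter_upwards [h4] with M ⟨s, hs1, hs2⟩
    exact ⟨s, hs1, fun n hn => ⟨(hs2 n hn).1, (hs2 n hn).2.1, fun q hq => (hs2 n hn).2.2 0 q hq⟩⟩

end Pool.Agent.Results.MP_7b323f_nt.ExceptionalMultipliers
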