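import Pool.Agent.Q20.RG.RankR

/-!
# Record prime gaps around all the entries of matrices of a given rank modulo `p`

For `1 ≤ r < m`, `r ≤ n` and `0 < ε ≤ 1` there is `κ > 0` such that for all large primes `p` and all boxes
`∏ [A_ij, A_ij + N_ij)` in `[0, p)^(m × n)` with sides at least `p^ε` and of volume at least
`p^(m n - r + ε)`, at least `(volume) p^(-(m - r)(n - r) - ε)` of the integer `m × n` matrices in the box
have rank exactly `r` modulo `p` (their proportion is about `p^(-(m - r)(n - r))`) and have ALL their
`m n` entries isolated on the record scale: no prime lies at distance at most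
`κ log p (log₂ p)² log₄ p / (log₃ p)²` of any of them.  For instance (`m = n = 2`, `r = 1`) the solutions of
`a d ≡ b c` modulo `p` in boxes of volume `p^(3 + ε)`, and in general the integer points of
determinantal varieties modulo `p`.

Proof (`Pool.Agent.Q20.RG`): the exponential sums over the matrices of rank `r` whose first `r` columns
are independent are bounded by a count of degenerate matrices (summation over the free part, and
averaging over row operations for the others), then completion in `m n` coordinates and helper46's form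
(`Pool.Agent.Q46.MH.crit_many`) of the covering criterion for vectors of integers of the starting
repository (`Pool.Agent.Y961.JR.critJ`).
-/

set_option autoImplicit false

namespace Pool.Agent.Results.MP_7b323f_nt.MatricesOfGivenRank

/-- the record scale `log x (log₂ x)² log₄ x / (log₃ x)²` -/
noncomputable def scale (x : ℝ) : ℝ :=
  Real.log x * (Real.log (Real.log x)) ^ 2 * Real.log (Real.log (Real.log (Real.log x))) /
    (Real.log (Real.log (Real.log x))) ^ 2

/-- no prime at distance at most `K` of `n` -/
def Isolated (K : ℝ) (n : ℕ) : Prop := ∀ q : ℕ, q.Prime → K < |(q : ℝ) - n|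

/-- **Isolated matrices of a given rank modulo `p`.** For `1 ≤ r < m`, `r ≤ n`, all large primes `p` and all
boxes of intervals `[A a b, A a b + N a b)` in `[0, p)` of lengths at least `p^ε` with
`∏ N a b ≥ p^(m n - r + ε)`, at least `(∏ N a b) p^(-(m - r)(n - r) - ε)` matrices `Z` of natural numbers in
the box have rank `r` modulo `p` and all their entries isolated on the record scale. -/
theorem result : ∀ m n r : ℕ, 1 ≤ r → r < m → r ≤ n → ∀ ε : ℝ, 0 < ε → ε ≤ 1 →
    ∃ κ : ℝ, 0 < κ ∧ ∃ p₀ : ℕ, ∀ p : ℕ, p₀ ≤ p → p.Prime →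
    ∀ A N : Fin m → Fin n → ℕ, (∀ a b, A a b + N a b ≤ p) → (∀ a b, (p : ℝ) ^ ε ≤ N a b) →
      (p : ℝ) ^ ((m : ℝ) * n - r + ε) ≤ ∏ a, ∏ b, (N a b : ℝ) →
      ∃ G : Finset (Matrix (Fin m) (Fin n) ℕ),
        (∏ a, ∏ b, (N a b : ℝ)) * (p : ℝ) ^ (-(((m : ℝ) - r) * ((n : ℝ) - r)) - ε) ≤ G.card ∧
        ∀ Z ∈ G, (∀ a b, A a b ≤ Z a b ∧ Z a b < A a b + N a b) ∧
          (Z.map (fun z : ℕ => (z : ZMod p))).rank = r ∧
          ∀ a b, Isolated (κ * scale p) (Z a b) :=
  fun m n r hr hrm hrn ε h0 h1 => Pool.Agent.Q20.RG.rankmain m n r hr hrm hrn ε h0 h1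

end Pool.Agent.Results.MP_7b323f_nt.MatricesOfGivenRank
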