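import Pool.Agent.TH668.Met.Main
import Pool.Agent.TH668.Met.Leb

set_option autoImplicit false

/-!
# Dilates of a sequence by the points of a Salem set meet record prime gaps

Let `μ` be a finite measure on the real line whose Fourier transform is `O(|ξ| ^ (-τ))` for some
`τ > 0`; such measures live on Salem sets, on the well approximable numbers, on the sets of numbers
with bounded partial quotients, hence on sets of arbitrarily small Hausdorff dimension.  Let `a n`,
`b n` be real sequences with `a (n + 1) - a n ≥ n ^ (ρ - 1)` for all large `n`; nothing is assumed on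
`b` and no upper bound on the growth of `a`.  Then `μ`-almost every `α` has the following property if
`α a n + b n ≥ n ^ ε` for all large `n`: for all large `M` one of the numbers `α a n + b n`,
`M < n ≤ 4 M`, is such that no prime lies within `κ log M (log₂ M)² log₄ M / (log₃ M)²` of it.

Proof (`Pool.Agent.TH668.Met`, theorem `metric`, of the starting library, where it is not used): mean
squares of exponential sums with respect to `μ` and a covering sieve.
-/

open MeasureTheory Filter

namespace Pool.Agent.Results.MP_7b323f_nt.SalemDilates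

/-- `L(x) = log x (log log x)^2 log log log log x / (log log log x)^2`. -/
noncomputable def L (x : ℝ) : ℝ :=
  Real.log x * (Real.log (Real.log x)) ^ 2 * Real.log (Real.log (Real.log (Real.log x))) /
    (Real.log (Real.log (Real.log x))) ^ 2

/-- for all large `M` one of the numbers `x n`, `M < n ≤ 4 M`, is at distance greater than
`κ L(M)` from all primes -/
def MeetsRecordGaps (κ : ℝ) (x : ℕ → ℝ) : Prop :=
  ∀ᶠ M : ℝ in atTop, ∃ n : ℕ, M < n ∧ (n : ℝ) ≤ 4 * M ∧
    ∀ q : ℕ, q.Prime → κ * L M < |(q : ℝ) - x n|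

theorem result (τ ρ ε : ℝ) (hτ : 0 < τ) (hρ : 0 < ρ) (hρ1 : ρ ≤ 1) (hε : 0 < ε) :
    ∃ κ : ℝ, 0 < κ ∧ ∀ (μ : Measure ℝ) [IsFiniteMeasure μ] (C : ℝ),
      (∀ ξ : ℝ, 1 ≤ |ξ| →
        ‖∫ x : ℝ, Complex.exp (2 * Real.pi * (ξ * x) * Complex.I) ∂μ‖ ≤ C * |ξ| ^ (-τ)) →
      ∀ a b : ℕ → ℝ, (∀ᶠ n : ℕ in atTop, (n : ℝ) ^ (ρ - 1) ≤ a (n + 1) - a n) →
      ∀ᵐ α ∂μ, (∀ᶠ n : ℕ in atTop, (n : ℝ) ^ ε ≤ α * a n + b n) →
        MeetsRecordGaps κ (fun n => α * a n + b n) := by
  obtain ⟨κ, hκ, h⟩ := Pool.Agent.TH668.Met.metric τ ρ ε hτ hρ hρ1 hε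
  refine ⟨κ, hκ, fun μ _ C hμ => ?_⟩
  refine h μ C fun ξ hξ => ?_
  simp_rw [Pool.Agent.TH668.Met.e_eq]
  exact hμ ξ hξ

end Pool.Agent.Results.MP_7b323f_nt.SalemDilates
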